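import Pool.Agent.UTR.Stmts
import Pool.Agent.Helper64_FR.DERP
import Pool.Agent.Helper64_FR.Basic
import Pool.Agent.Helper39_BSE.TRN

/-!
# UTR, row GEN: vectors killed by `E_ij`, `i, j ∈ S`, are fixed by `U_S`
-/

set_option autoImplicit false

open MeasureTheory Matrix Finset
open scoped ComplexConjugate

namespace Pool.Agent.UTR.H27

open Pool.Agent.Helper64_FR Pool.Agent.UTR

theorem exp_idem {A : Type*} [NormedRing A] [NormedAlgebra ℂ A] [CompleteSpace A] (Q : A)
    (hQ : Q * Q = Q) (z : ℂ) : NormedSpace.exp (z • Q) = 1 + (Complex.exp z - 1) • Q := by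
  have h1 : HasSum (fun m : ℕ => ((m.factorial : ℂ)⁻¹) • (z • Q) ^ m)
      (NormedSpace.exp (z • Q)) :=
    NormedSpace.exp_series_hasSum_exp' (𝕂 := ℂ) _
  have hpow : ∀ m : ℕ, Q ^ (m + 1) = Q := by
    intro m
    induction m with
    | zero => rw [zero_add, pow_one]
    | succ m ih => rw [pow_succ, ih, hQ]
  have h2 : HasSum (fun m : ℕ => ((m.factorial : ℂ)⁻¹ * z ^ m) • Q) (Complex.exp z • Q) := by
    have h3 : HasSum (fun m : ℕ => ((m.factorial : ℂ)⁻¹) • z ^ m) (NormedSpace.exp z) :=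
      NormedSpace.exp_series_hasSum_exp' (𝕂 := ℂ) z
    rw [← Complex.exp_eq_exp_ℂ] at h3
    exact h3.smul_const Q
  have h5 : HasSum (fun m : ℕ => if m = 0 then (1 - Q) else 0) (1 - Q) := hasSum_ite_eq 0 _
  have h6 := h2.add h5
  have h7 : (fun m : ℕ => ((m.factorial : ℂ)⁻¹) • (z • Q) ^ m) =
      fun m : ℕ => ((m.factorial : ℂ)⁻¹ * z ^ m) • Q + (if m = 0 then (1 - Q) else 0) := by
    funext m
    rcases Nat.eq_zero_or_pos m with rfl | hm
    · simp
    · obtain ⟨k, rfl⟩ := Nat.exists_eq_succ_of_ne_zero hm.ne'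
      rw [if_neg (Nat.succ_ne_zero k), add_zero, smul_pow, hpow, smul_smul]
  rw [h7] at h1
  rw [h1.unique h6, sub_smul, one_smul]
  abel

theorem exp_apply_of_ker {H : Type*} [NormedAddCommGroup H] [NormedSpace ℂ H] [CompleteSpace H]
    (T : H →L[ℂ] H) (v : H) (h : T v = 0) : NormedSpace.exp T v = v := by
  have h1 : HasSum (fun m : ℕ => ((m.factorial : ℂ)⁻¹) • T ^ m) (NormedSpace.exp T) :=
    NormedSpace.exp_series_hasSum_exp' (𝕂 := ℂ) T
  have h2 : HasSum (fun m : ℕ => (((m.factorial : ℂ)⁻¹) • T ^ m) v) (NormedSpace.exp T v) :=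
    (ContinuousLinearMap.apply ℂ H v).hasSum h1
  have h3 : HasSum (fun m : ℕ => (((m.factorial : ℂ)⁻¹) • T ^ m) v) v := by
    have h4 : HasSum (fun m : ℕ => (((m.factorial : ℂ)⁻¹) • T ^ m) v)
        ((fun m : ℕ => (((m.factorial : ℂ)⁻¹) • T ^ m) v) 0) := by
      refine hasSum_single 0 ?_
      intro m hm
      obtain ⟨k, rfl⟩ := Nat.exists_eq_succ_of_ne_zero hm
      have h5 : (T ^ (k + 1)) v = (T ^ k) (T v) := by
        rw [pow_succ]
        rfl
      change ((k + 1).factorial : ℂ)⁻¹ • (T ^ (k + 1)) v = 0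
      rw [h5, h, map_zero, smul_zero]
    simpa using h4
  exact h2.unique h3

section mat

attribute [local instance] Matrix.linftyOpNormedRing Matrix.linftyOpNormedAlgebra

theorem mexp_idem {n : ℕ} (Q : Matrix (Fin n) (Fin n) ℂ) (hQ : Q * Q = Q) (z : ℂ) :
    NormedSpace.exp (z • Q) = 1 + (Complex.exp z - 1) • Q := exp_idem Q hQ z

end mat

variable {n : ℕ}

theorem D_kill {ρ : URep n} {D : Matrix (Fin n) (Fin n) ℂ →ₗ[ℂ] (ρ.Sp →L[ℂ] ρ.Sp)}
    {S : Finset (Fin n)} {v : ρ.Sp} (hv : ∀ i ∈ S, ∀ j ∈ S, D (EE i j) v = 0)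
    {X : Matrix (Fin n) (Fin n) ℂ} (hX : DERP.Supp S X) : D X v = 0 := by
  have h1 : X = ∑ i, ∑ j, X i j • EE i j := by
    conv_lhs => rw [Matrix.matrix_eq_sum_single X]
    refine Finset.sum_congr rfl fun i _ => Finset.sum_congr rfl fun j _ => ?_
    rw [EE, Matrix.smul_single, smul_eq_mul, mul_one]
  rw [h1, map_sum, _root_.sum_apply]
  refine Finset.sum_eq_zero fun i _ => ?_
  rw [map_sum, _root_.sum_apply]
  refine Finset.sum_eq_zero fun j _ => ?_
  rw [map_smul, _root_.smul_apply]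
  by_cases hi : i ∈ S
  · by_cases hj : j ∈ S
    · rw [hv i hi j hj, smul_zero]
    · rw [hX i j (Or.inr hj), zero_smul]
  · rw [hX i j (Or.inl hi), zero_smul]

/-- the elements `1 + (z - 1) Q` -/
theorem fixed_of_proj {ρ : URep n} {D : Matrix (Fin n) (Fin n) ℂ →ₗ[ℂ] (ρ.Sp →L[ℂ] ρ.Sp)}
    (hD : IsDer ρ D) {S : Finset (Fin n)} {v : ρ.Sp}
    (hv : ∀ i ∈ S, ∀ j ∈ S, D (EE i j) v = 0) {Q : Matrix (Fin n) (Fin n) ℂ} (hQ : Q * Q = Q)
    (hQs : star Q = Q) (hS : DERP.Supp S Q) {θ : ℝ} {g : UU n}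
    (hg : (g : Matrix (Fin n) (Fin n) ℂ) = 1 + (Complex.exp (θ * Complex.I) - 1) • Q) :
    ρ.op g v = v := by
  have h1 : star ((θ * Complex.I : ℂ) • Q) = -((θ * Complex.I : ℂ) • Q) := by
    rw [star_smul, hQs, ← neg_smul]
    congr 1
    simp
  have h2 := hD.exp_eq ((θ * Complex.I : ℂ) • Q) g h1 (by rw [hg, mexp_idem Q hQ])
  rw [h2]
  apply exp_apply_of_ker
  apply D_kill hv
  intro i j hij
  rw [Matrix.smul_apply, hS i j hij, smul_zero]

theorem mem_UB_of {S : Finset (Fin n)} {Q : Matrix (Fin n) (Fin n) ℂ} (hS : DERP.Supp S Q)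
    {z : ℂ} {g : UU n} (hg : (g : Matrix (Fin n) (Fin n) ℂ) = 1 + z • Q) : g ∈ UB S := by
  intro i j hij
  show (g : Matrix (Fin n) (Fin n) ℂ) i j = _
  rw [hg, Matrix.add_apply, Matrix.smul_apply, hS i j hij, smul_zero, add_zero, Matrix.one_apply]

/-- the factorisation: a phase times a reflection maps `e_b` to `u` -/
theorem trn2 (B : Finset (Fin n)) (b : Fin n) (hb : b ∈ B) (u : Fin n → ℂ)
    (hu : ∀ i, i ∉ B → u i = 0) (hu1 : ∑ i, ‖u i‖ ^ 2 = 1) :
    ∃ (θ : ℝ) (Q : Matrix (Fin n) (Fin n) ℂ) (g₁ g₂ : UU n), Q * Q = Q ∧ star Q = Q ∧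
      DERP.Supp B Q ∧
      (g₁ : Matrix (Fin n) (Fin n) ℂ) = 1 + (Complex.exp (θ * Complex.I) - 1) •
        (Matrix.diagonal fun i => if i ∈ B then (1 : ℂ) else 0) ∧
      (g₂ : Matrix (Fin n) (Fin n) ℂ) = 1 + (Complex.exp ((Real.pi : ℝ) * Complex.I) - 1) • Q ∧
      ∀ i, ((g₁ * g₂ : UU n) : Matrix (Fin n) (Fin n) ℂ) i b = u i := by
  obtain ⟨φ, hφ1, hφ2⟩ := BSE.H39.exists_phase (u b)
  obtain ⟨ρ, hρ⟩ : ∃ ρ : ℝ, ρ = ‖u b‖ := ⟨_, rfl⟩
  have hρ0 : 0 ≤ ρ := by rw [hρ]; exact norm_nonneg _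
  rw [← hρ] at hφ2
  have hφ3 : φ * conj (u b) = -(ρ : ℂ) := by
    have := congrArg conj hφ2
    rw [map_mul, Complex.conj_conj, map_neg, Complex.conj_ofReal] at this
    exact this
  have hρ1 : (1 + (ρ : ℂ)) ≠ 0 := by
    have : (1 + (ρ : ℂ)) = ((1 + ρ : ℝ) : ℂ) := by push_cast; rfl
    rw [this, Complex.ofReal_ne_zero]
    linarith
  obtain ⟨w, hw⟩ : ∃ w : Fin n → ℂ, w = fun i => (if i = b then 1 else 0) - conj φ * u i :=
    ⟨_, rfl⟩
  have hw0 : ∀ i, i ∉ B → w i = 0 := by
    intro i hi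
    have hib : i ≠ b := fun h => hi (h ▸ hb)
    rw [hw]
    simp only
    rw [if_neg hib, hu i hi, mul_zero, sub_zero]
  have hwb : w b = 1 + (ρ : ℂ) := by
    rw [hw]
    simp only [if_true]
    rw [hφ2]
    ring
  have hu1' : ∑ i, u i * conj (u i) = 1 := by
    have h1 : ∀ i, u i * conj (u i) = ((‖u i‖ ^ 2 : ℝ) : ℂ) := by
      intro i
      rw [Complex.mul_conj']
      push_cast
      rfl
    rw [Finset.sum_congr rfl fun i _ => h1 i, ← Complex.ofReal_sum, hu1, Complex.ofReal_one]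
  have hww : ∑ i, conj (w i) * w i = 2 * (1 + (ρ : ℂ)) := by
    have h1 : ∀ i, conj (w i) * w i = (if i = b then 1 else 0) -
        (if i = b then φ * conj (u i) else 0) - (if i = b then conj φ * u i else 0) +
          (φ * conj φ) * (u i * conj (u i)) := by
      intro i
      rw [hw]
      simp only [map_sub, map_mul, Complex.conj_conj]
      split_ifs
      · rw [map_one]
        ring
      · rw [map_zero]
        ring
    rw [Finset.sum_congr rfl fun i _ => h1 i, Finset.sum_add_distrib, Finset.sum_sub_distrib,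
      Finset.sum_sub_distrib, ← Finset.mul_sum, hu1', hφ1]
    simp only [Finset.sum_ite_eq', Finset.mem_univ, if_true]
    rw [hφ3, hφ2]
    ring
  obtain ⟨c, hc⟩ : ∃ c : ℂ, c = 1 / (2 * (1 + (ρ : ℂ))) := ⟨_, rfl⟩
  have hcc : conj c = c := by
    have h1 : c = ((1 / (2 * (1 + ρ)) : ℝ) : ℂ) := by
      rw [hc]
      push_cast
      rfl
    rw [h1, Complex.conj_ofReal]
  obtain ⟨W, hW⟩ : ∃ W : Matrix (Fin n) (Fin n) ℂ, W = Matrix.of fun i j => w i * conj (w j) :=
    ⟨_, rfl⟩
  have hWW : W * W = (2 * (1 + (ρ : ℂ))) • W := by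
    ext i j
    rw [Matrix.mul_apply, Matrix.smul_apply, smul_eq_mul, hW]
    simp only [Matrix.of_apply]
    rw [← hww, Finset.sum_mul]
    refine Finset.sum_congr rfl fun k _ => ?_
    ring
  have hWs : star W = W := by
    ext i j
    rw [Matrix.star_apply, hW]
    simp only [Matrix.of_apply, star_mul', RCLike.star_def, Complex.conj_conj]
    ring
  have hQQ : (c • W) * (c • W) = c • W := by
    rw [smul_mul_smul_comm, hWW, smul_smul]
    congr 1
    rw [hc]
    field_simp
  have hQs : star (c • W) = c • W := by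
    rw [star_smul, hWs, RCLike.star_def, hcc]
  have hQS : DERP.Supp B (c • W) := by
    intro i j hij
    rw [Matrix.smul_apply, hW, Matrix.of_apply]
    rcases hij with h | h
    · rw [hw0 i h, zero_mul, smul_zero]
    · rw [hw0 j h, map_zero, mul_zero, smul_zero]
  have hpi : Complex.exp ((Real.pi : ℝ) * Complex.I) - 1 = -2 := by
    rw [Complex.exp_pi_mul_I]
    norm_num
  obtain ⟨H, hH⟩ : ∃ H : Matrix (Fin n) (Fin n) ℂ,
      H = 1 + (Complex.exp ((Real.pi : ℝ) * Complex.I) - 1) • (c • W) := ⟨_, rfl⟩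
  have hHs : star H = H := by
    rw [hH, hpi, star_add, star_one, star_smul, hQs]
    simp
  have hHu : H ∈ Matrix.unitaryGroup (Fin n) ℂ := by
    rw [Matrix.mem_unitaryGroup_iff, hHs, hH, hpi]
    have h1 : (1 + (-2 : ℂ) • (c • W)) * (1 + (-2 : ℂ) • (c • W)) =
        1 + ((-2 : ℂ) + (-2) + (-2) * (-2)) • (c • W) := by
      rw [add_mul, mul_add, mul_add, one_mul, mul_one, smul_mul_smul_comm, hQQ]
      simp only [add_smul, one_mul]
      abel
    rw [h1]
    norm_num
  -- the phase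
  obtain ⟨θ, hθ⟩ : ∃ θ : ℝ, Complex.exp (θ * Complex.I) = φ := by
    refine ⟨φ.arg, ?_⟩
    have h1 : ‖φ‖ = 1 := by
      have h2 : (φ * conj φ) = ((‖φ‖ ^ 2 : ℝ) : ℂ) := by
        rw [Complex.mul_conj']
        push_cast
        rfl
      rw [hφ1] at h2
      have h3 : (1 : ℝ) = ‖φ‖ ^ 2 := by exact_mod_cast h2
      have h4 := norm_nonneg φ
      nlinarith
    have h5 := Complex.norm_mul_exp_arg_mul_I φ
    rw [h1, Complex.ofReal_one, one_mul] at h5
    exact h5
  obtain ⟨D, hD⟩ : ∃ D : Matrix (Fin n) (Fin n) ℂ,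
      D = Matrix.diagonal fun i => if i ∈ B then φ else 1 := ⟨_, rfl⟩
  have hDu : D ∈ Matrix.unitaryGroup (Fin n) ℂ := by
    rw [Matrix.mem_unitaryGroup_iff, hD, Matrix.star_eq_conjTranspose,
      Matrix.diagonal_conjTranspose, Matrix.diagonal_mul_diagonal, ← Matrix.diagonal_one]
    congr 1
    funext i
    rw [Pi.star_apply]
    split_ifs
    · exact hφ1
    · simp
  refine ⟨θ, c • W, ⟨D, hDu⟩, ⟨H, hHu⟩, hQQ, hQs, hQS, ?_, hH, fun i => ?_⟩
  · show D = _
    rw [hD, hθ]
    ext i j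
    rw [Matrix.add_apply, Matrix.smul_apply, Matrix.diagonal_apply, Matrix.diagonal_apply,
      Matrix.one_apply]
    split_ifs <;> simp
  · show (D * H) i b = u i
    have hHb : H i b = conj φ * u i := by
      rw [hH, hpi, Matrix.add_apply, Matrix.one_apply, Matrix.smul_apply, Matrix.smul_apply, hW,
        Matrix.of_apply, hwb, map_add, map_one, Complex.conj_ofReal, smul_eq_mul, smul_eq_mul, hc]
      have h1 : (-2 : ℂ) * (1 / (2 * (1 + (ρ : ℂ))) * (w i * (1 + (ρ : ℂ)))) = - w i := by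
        field_simp
      rw [h1, hw]
      ring
    rw [hD, Matrix.diagonal_mul, hHb]
    split_ifs with h
    · rw [← mul_assoc, hφ1, one_mul]
    · rw [hu i h, mul_zero, mul_zero]

theorem gen : GENStmt := by
  intro n ρ D hD S
  induction hN : S.card using Nat.strong_induction_on generalizing S with
  | _ N ih =>
    intro v hv h hh
    rcases S.eq_empty_or_nonempty with rfl | ⟨b, hb⟩
    · have h1 : h = 1 := by
        apply Subtype.ext
        ext i j
        have h2 : (h : Matrix (Fin n) (Fin n) ℂ) i j = if i = j then 1 else 0 :=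
          hh i j (Or.inl (Finset.notMem_empty i))
        rw [h2]
        show _ = (1 : Matrix (Fin n) (Fin n) ℂ) i j
        rw [Matrix.one_apply]
      rw [h1, ρ.op_one]
      rfl
    · have hh' : ∀ i j, (i ∉ S ∨ j ∉ S) →
        (h : Matrix (Fin n) (Fin n) ℂ) i j = if i = j then 1 else 0 := hh
      obtain ⟨θ, Q, g₁, g₂, hQQ, hQs, hQS, hg₁, hg₂, hgu⟩ := trn2 S b hb
        (fun i => (h : Matrix (Fin n) (Fin n) ℂ) i b) (by
          intro i hi
          show (h : Matrix (Fin n) (Fin n) ℂ) i b = 0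
          rw [hh' i b (Or.inl hi), if_neg]
          rintro rfl
          exact hi hb) (by
          have h1 : star (h : Matrix (Fin n) (Fin n) ℂ) * (h : Matrix (Fin n) (Fin n) ℂ) = 1 :=
            Matrix.mem_unitaryGroup_iff'.1 h.2
          have h2 := congrFun (congrFun h1 b) b
          rw [Matrix.mul_apply, Matrix.one_apply_eq] at h2
          have h3 : ((∑ i, ‖(h : Matrix (Fin n) (Fin n) ℂ) i b‖ ^ 2 : ℝ) : ℂ) = ((1 : ℝ) : ℂ) := by
            rw [Complex.ofReal_one, ← h2, Complex.ofReal_sum]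
            refine Finset.sum_congr rfl fun i _ => ?_
            rw [Matrix.star_apply, RCLike.star_def, Complex.conj_mul']
            push_cast
            rfl
          exact Complex.ofReal_injective h3)
      have hdS : DERP.Supp S (Matrix.diagonal fun i => if i ∈ S then (1 : ℂ) else 0) := by
        intro i j hij
        rw [Matrix.diagonal_apply]
        by_cases h1 : i = j
        · subst h1
          rw [if_pos rfl, if_neg (hij.elim id id)]
        · rw [if_neg h1]
      have hf₁ : ρ.op g₁ v = v := by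
        refine fixed_of_proj hD hv ?_ ?_ hdS hg₁
        · rw [Matrix.diagonal_mul_diagonal]
          congr 1
          funext i
          split_ifs <;> simp
        · rw [Matrix.star_eq_conjTranspose, Matrix.diagonal_conjTranspose]
          congr 1
          funext i
          rw [Pi.star_apply]
          split_ifs <;> simp
      have hf₂ : ρ.op g₂ v = v := fixed_of_proj hD hv hQQ hQs hQS hg₂
      have hA : g₁ * g₂ ∈ UB S := (UB S).mul_mem (mem_UB_of hdS hg₁) (mem_UB_of hQS hg₂)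
      obtain ⟨k, hk⟩ : ∃ k : UU n, k = (g₁ * g₂)⁻¹ * h := ⟨_, rfl⟩
      have hkS : k ∈ UB S := by
        rw [hk]
        exact (UB S).mul_mem ((UB S).inv_mem hA) hh
      have hkS' : ∀ i j, (i ∉ S ∨ j ∉ S) →
        (k : Matrix (Fin n) (Fin n) ℂ) i j = if i = j then 1 else 0 := hkS
      have hcol : ∀ i, (k : Matrix (Fin n) (Fin n) ℂ) i b = if i = b then 1 else 0 := by
        intro i
        have h1 : (k : Matrix (Fin n) (Fin n) ℂ) =
            star ((g₁ * g₂ : UU n) : Matrix (Fin n) (Fin n) ℂ) *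
              (h : Matrix (Fin n) (Fin n) ℂ) := by
          rw [hk]
          rfl
        have h2 : star ((g₁ * g₂ : UU n) : Matrix (Fin n) (Fin n) ℂ) *
            ((g₁ * g₂ : UU n) : Matrix (Fin n) (Fin n) ℂ) = 1 :=
          Matrix.mem_unitaryGroup_iff'.1 (g₁ * g₂).2
        have h3 := congrFun (congrFun h2 i) b
        rw [Matrix.mul_apply, Matrix.one_apply] at h3
        rw [h1, Matrix.mul_apply, ← h3]
        refine Finset.sum_congr rfl fun l _ => ?_
        rw [hgu l]
      have hrow : ∀ j, (k : Matrix (Fin n) (Fin n) ℂ) b j = if b = j then 1 else 0 := by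
        intro j
        have h2 : star (k : Matrix (Fin n) (Fin n) ℂ) * (k : Matrix (Fin n) (Fin n) ℂ) = 1 :=
          Matrix.mem_unitaryGroup_iff'.1 k.2
        have h3 := congrFun (congrFun h2 b) j
        rw [Matrix.mul_apply, Matrix.one_apply] at h3
        rw [← h3, Finset.sum_eq_single b]
        · rw [Matrix.star_apply, hcol b, if_pos rfl, star_one, one_mul]
        · intro l _ hl
          rw [Matrix.star_apply, hcol l, if_neg hl, star_zero, zero_mul]
        · intro h4
          exact absurd (Finset.mem_univ b) h4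
      have hkb : k ∈ UB (S.erase b) := by
        intro i j hij
        show (k : Matrix (Fin n) (Fin n) ℂ) i j = _
        by_cases hi : i = b
        · rw [hi, hrow j]
        · by_cases hj : j = b
          · rw [hj, hcol i]
          · apply hkS'
            rcases hij with h1 | h1
            · exact Or.inl fun h2 => h1 (Finset.mem_erase.2 ⟨hi, h2⟩)
            · exact Or.inr fun h2 => h1 (Finset.mem_erase.2 ⟨hj, h2⟩)
      have hlt : (S.erase b).card < N := by
        rw [← hN]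
        exact Finset.card_erase_lt_of_mem hb
      have h5 : ρ.op k v = v := ih _ hlt (S.erase b) rfl v
        (fun i hi j hj => hv i (Finset.mem_of_mem_erase hi) j (Finset.mem_of_mem_erase hj)) k hkb
      have h6 : h = g₁ * (g₂ * k) := by
        rw [hk]
        group
      rw [h6, ρ.op_mul, ρ.op_mul]
      show ρ.op g₁ (ρ.op g₂ (ρ.op k v)) = v
      rw [h5, hf₂, hf₁]

end Pool.Agent.UTR.H27
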